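import Mathlib

/-!
# An infinite locally finite simple group without nonabelian finite simple subgroups

Outline of the construction.

* For a finite group `E` acting on a finite set `X` with base point `x₀`, and `m = |E|`, consider
  the finite connected graph with vertex set `X` and edge set `E × X × X` (the edge `(e, x, y)`
  goes from `x` to `y`), on which `E` acts freely on edges.  `Ext E m x₀` is the group of all
  pairs `(c, g)`, `c` a `1`-chain mod `m` with boundary `g x₀ - x₀`; it is an extension of `E`
  with abelian kernel over which the stabilizer of `x₀` lifts canonically, and it acts on the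
  vertices `Vert E m x₀` of the maximal abelian cover of exponent `m` of the graph.
* `exists_fixed`: if an element of prime order of `E` lifts to an element of the same order then
  it fixes a vertex in `X`.  `unique_fixed`: all vertices of the cover fixed by one such lift lie
  above one single vertex.
* `tower`: iterating the extension `s` times gives a solvable extension `F` of `E` such that each
  subgroup of order at most `s` of `E` that lifts to `F` fixes a vertex (induction on `s` and a
  counting argument, `abstract_fixed`).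
* `embed`: applied to a perfect finite group `H` inside an alternating group `A` acting on `A/H`,
  this gives a finite perfect group `D` containing `H`, a solvable extension of `A`, in which
  each nontrivial element of `H` has normal closure `D`, and all of whose simple subgroups are
  either abelian or isomorphic to subgroups of `H`.
* The union of a chain of such groups is the required group.
-/

set_option autoImplicit false

namespace Pool.Agent.MP_0b7c94_al

open MulAction


/-- Counting lemma: a finite group acting on a finite nonempty set such that each nonidentity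
element fixes exactly one point and each point has nontrivial stabilizer has a fixed point. -/
theorem exists_fixed_of_unique {S V : Type} [Group S] [Finite S] [Nontrivial S] [MulAction S V]
    [Finite V]
    (h1 : ∀ s : S, s ≠ 1 → ∃! v : V, s • v = v)
    (h2 : ∀ v : V, ∃ s : S, s ≠ 1 ∧ s • v = v) :
    ∃ v : V, ∀ s : S, s • v = v := by
  classical
  have := Fintype.ofFinite S
  have := Fintype.ofFinite V
  have : Fintype (Quotient (orbitRel S V)) := Fintype.ofFinite _
  have : ∀ g : S, Fintype (fixedBy V g) := fun g => Fintype.ofFinite _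
  have B := sum_card_fixedBy_eq_card_orbits_mul_card_group (G := S) (X := V)
  -- fixed points of nonidentity elements
  have hf : ∀ g : S, g ≠ 1 → Fintype.card (fixedBy V g) = 1 := by
    intro g hg
    obtain ⟨v, hv, hu⟩ := h1 g hg
    rw [Fintype.card_eq_one_iff]
    exact ⟨⟨v, hv⟩, fun w => Subtype.ext (hu w.1 w.2)⟩
  have hf1 : Fintype.card (fixedBy V (1 : S)) = Fintype.card V := by
    rw [← Fintype.card_subtype_true (α := V)]
    apply Fintype.card_congr
    exact Equiv.subtypeEquivRight (by intro v; simp)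
  have hsum : (∑ g : S, Fintype.card (fixedBy V g)) = Fintype.card V + (Fintype.card S - 1) := by
    rw [← Finset.add_sum_erase _ _ (Finset.mem_univ (1 : S)), hf1]
    congr 1
    rw [Finset.sum_congr rfl (fun g hg => hf g (Finset.ne_of_mem_erase hg))]
    simp [Finset.card_erase_of_mem]
  -- double counting
  have hdc : (∑ g : S, Fintype.card (fixedBy V g))
      = ∑ v : V, (Finset.univ.filter (fun g : S => g • v = v)).card := by
    have : ∀ g : S, Fintype.card (fixedBy V g)
        = (Finset.univ.filter (fun v : V => g • v = v)).card := by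
      intro g
      rw [Fintype.card_subtype]
      rfl
    simp_rw [this, Finset.card_filter]
    exact Finset.sum_comm
  have hst : ∀ v : V, 2 ≤ (Finset.univ.filter (fun g : S => g • v = v)).card := by
    intro v
    obtain ⟨s, hs, hsv⟩ := h2 v
    have hsub : ({1, s} : Finset S) ⊆ Finset.univ.filter (fun g : S => g • v = v) := by
      intro g hg
      simp only [Finset.mem_insert, Finset.mem_singleton] at hg
      rcases hg with rfl | rfl
      · simp
      · simp [hsv]
    calc 2 = ({1, s} : Finset S).card := by rw [Finset.card_pair (Ne.symm hs)]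
      _ ≤ _ := Finset.card_le_card hsub
  have h2V : 2 * Fintype.card V ≤ Fintype.card V + (Fintype.card S - 1) := by
    rw [← hsum, hdc]
    calc 2 * Fintype.card V = ∑ _v : V, 2 := by simp [mul_comm]
      _ ≤ _ := Finset.sum_le_sum (fun v _ => hst v)
  have hS : 1 < Fintype.card S := Fintype.one_lt_card
  rw [hsum] at B
  have hk : Fintype.card (Quotient (orbitRel S V)) = 1 := by
    set k := Fintype.card (Quotient (orbitRel S V)) with hkdef
    set n := Fintype.card S
    set N := Fintype.card V
    have hN : 1 ≤ N := by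
      obtain ⟨g, hg⟩ := exists_ne (1 : S)
      obtain ⟨v, -, -⟩ := h1 g hg
      exact Fintype.card_pos_iff.mpr ⟨v⟩
    have hlt : k * n < 2 * n := by rw [← B]; omega
    have hk2 : k < 2 := lt_of_mul_lt_mul_right hlt (Nat.zero_le n)
    have hk0 : k ≠ 0 := by
      rintro h0
      rw [h0] at B
      omega
    omega
  rw [hk, one_mul] at B
  have hV : Fintype.card V = 1 := by omega
  obtain ⟨v, hv⟩ := Fintype.card_eq_one_iff.mp hV
  exact ⟨v, fun s => hv _⟩

/-- Some power of a nonidentity element of a finite group has prime order. -/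
theorem exists_pow_prime_order {S : Type} [Group S] [Finite S] (x : S) (hx : x ≠ 1) :
    ∃ k : ℕ, (orderOf (x ^ k)).Prime := by
  have h0 : orderOf x ≠ 1 := by rwa [ne_eq, orderOf_eq_one_iff]
  obtain ⟨p, hp, hpd⟩ := Nat.exists_prime_and_dvd h0
  refine ⟨orderOf x / p, ?_⟩
  rw [orderOf_pow_of_dvd ?_ (Nat.div_dvd_of_dvd hpd), Nat.div_div_self hpd (orderOf_pos x).ne']
  · exact hp
  · exact (Nat.div_pos (Nat.le_of_dvd (orderOf_pos x) hpd) hp.pos).ne'

/-- The abstract fixed point argument. -/
theorem abstract_fixed {S Y X : Type} [Group S] [Finite S] [MulAction S Y] [MulAction S X]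
    [Finite X] (η : Y → X) (hη : ∀ (s : S) (y : Y), η (s • y) = s • η y) (hne : Nonempty X)
    (ha : ∀ s : S, (orderOf s).Prime → ∀ y₁ y₂ : Y, s • y₁ = y₁ → s • y₂ = y₂ → η y₁ = η y₂)
    (hb : ∀ B : Subgroup S, B ≠ ⊤ → ∃ y : Y, ∀ b ∈ B, b • y = y)
    (hc : ∀ s : S, (orderOf s).Prime → ∃ x : X, s • x = x) :
    ∃ x : X, ∀ s : S, s • x = x := by
  by_contra hcon
  push Not at hcon
  have hnt : Nontrivial S := by
    obtain ⟨x⟩ := hne
    obtain ⟨s, hs⟩ := hcon x
    refine ⟨⟨s, 1, ?_⟩⟩
    rintro rfl
    exact hs (one_smul S x)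
  -- uniqueness for all nonidentity elements
  have ha' : ∀ s : S, s ≠ 1 → ∀ y₁ y₂ : Y, s • y₁ = y₁ → s • y₂ = y₂ → η y₁ = η y₂ := by
    intro s hs y₁ y₂ h₁ h₂
    obtain ⟨k, hk⟩ := exists_pow_prime_order s hs
    have key : ∀ y : Y, s • y = y → s ^ k • y = y := by
      intro y hy
      have : s ∈ stabilizer S y := hy
      exact (stabilizer S y).pow_mem this k
    exact ha _ hk y₁ y₂ (key _ h₁) (key _ h₂)
  -- no element generates
  have hgen : ∀ s : S, s ≠ 1 → Subgroup.zpowers s ≠ ⊤ := by
    intro s hs htop
    obtain ⟨k, hk⟩ := exists_pow_prime_order s hs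
    by_cases hz : Subgroup.zpowers (s ^ k) = ⊤
    · obtain ⟨x, hx⟩ := hc _ hk
      obtain ⟨t, ht⟩ := hcon x
      apply ht
      have hle : Subgroup.zpowers (s ^ k) ≤ stabilizer S x := by
        rw [Subgroup.zpowers_le]; exact hx
      have : t ∈ stabilizer S x := hle (hz ▸ Subgroup.mem_top t)
      exact this
    · obtain ⟨y, hy⟩ := hb _ hz
      have hy' : s ^ k • y = y := hy _ (Subgroup.mem_zpowers _)
      have hsy : s ^ k • (s • y) = s • y := by
        rw [← mul_smul, ← pow_succ, pow_succ', mul_smul, hy']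
      have h1 := ha _ hk _ _ hsy hy'
      rw [hη] at h1
      obtain ⟨t, ht⟩ := hcon (η y)
      apply ht
      have hle : Subgroup.zpowers s ≤ stabilizer S (η y) := by
        rw [Subgroup.zpowers_le]; exact h1
      exact hle (htop ▸ Subgroup.mem_top t)
  -- the set of special vertices
  let V₀ : SubMulAction S X :=
    { carrier := {x | ∃ s : S, s ≠ 1 ∧ ∃ y : Y, s • y = y ∧ η y = x}
      smul_mem' := by
        rintro c x ⟨s, hs, y, hy, rfl⟩
        refine ⟨c * s * c⁻¹, ?_, c • y, ?_, hη c y⟩
        · intro h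
          apply hs
          have : s = c⁻¹ * (c * s * c⁻¹) * c := by group
          rw [this, h]; group
        · rw [← mul_smul, inv_mul_cancel_right, mul_smul, hy] }
  have hfin : Finite V₀ := Subtype.finite
  have key : ∀ (s : S), s ≠ 1 → ∀ v ∈ V₀, s • v = v → ∀ y' : Y, s • y' = y' → η y' = v := by
    rintro s hs v ⟨z, hz, y, hzy, rfl⟩ hsv y' hy'
    obtain ⟨t, ht⟩ := hcon (η y)
    have hB : stabilizer S (η y) ≠ ⊤ := by
      intro h
      apply ht
      have : t ∈ stabilizer S (η y) := h ▸ Subgroup.mem_top t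
      exact this
    obtain ⟨w, hw⟩ := hb _ hB
    have h1 : z • w = w := hw z (by
      change z • η y = η y
      rw [← hη, hzy])
    have h2 : s • w = w := hw s hsv
    rw [ha' s hs y' w hy' h2, ha' z hz w y h1 hzy]
  obtain ⟨v, hv⟩ := exists_fixed_of_unique (S := S) (V := V₀) (by
    intro s hs
    obtain ⟨y, hy⟩ := hb _ (hgen s hs)
    have hy' : s • y = y := hy s (Subgroup.mem_zpowers s)
    refine ⟨⟨η y, s, hs, y, hy', rfl⟩, ?_, ?_⟩
    · apply Subtype.ext
      change s • η y = η y
      rw [← hη, hy']
    · rintro ⟨v, hv⟩ hsv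
      apply Subtype.ext
      have hsv' : s • v = v := congrArg Subtype.val hsv
      exact (key s hs v hv hsv' y hy').symm) (by
    rintro ⟨v, s, hs, y, hy, rfl⟩
    refine ⟨s, hs, ?_⟩
    apply Subtype.ext
    change s • η y = η y
    rw [← hη, hy])
  obtain ⟨t, ht⟩ := hcon v.1
  exact ht (congrArg Subtype.val (hv t))


/-- A level function for a fixed point free permutation of prime order. -/
theorem exists_theta {Y : Type} (σ : Equiv.Perm Y) (p : ℕ) [Fact p.Prime]
    (hσp : σ ^ p = 1) (hfree : ∀ y, σ y ≠ y) :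
    ∃ θ : Y → ZMod p, ∀ y, θ (σ y) = θ y + 1 := by
  classical
  let r : Y → Y := fun y => Quotient.out (s := Equiv.Perm.SameCycle.setoid σ) (Quotient.mk _ y)
  have hr : ∀ y, σ.SameCycle (r y) y := fun y =>
    Quotient.mk_out (s := Equiv.Perm.SameCycle.setoid σ) y
  choose i hi using hr
  have hrσ : ∀ y, r (σ y) = r y := by
    intro y
    have : (Quotient.mk (Equiv.Perm.SameCycle.setoid σ) (σ y)) = Quotient.mk _ y := by
      apply Quotient.sound
      change σ.SameCycle (σ y) y
      exact (Equiv.Perm.sameCycle_apply_left).mpr (Equiv.Perm.SameCycle.refl σ y)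
    simp only [r, this]
  have hdiv : ∀ (z : Y) (j : ℤ), (σ ^ j) z = z → (p : ℤ) ∣ j := by
    intro z j hj
    by_contra hnd
    have hcop : IsCoprime (p : ℤ) j :=
      (Prime.coprime_iff_not_dvd (Nat.prime_iff_prime_int.mp (Fact.out : p.Prime))).mpr hnd
    obtain ⟨a, b, hab⟩ := hcop
    apply hfree z
    have h1 : (σ ^ (1 : ℤ)) z = z := by
      rw [← hab, mul_comm a, mul_comm b, zpow_add, zpow_mul, zpow_mul, zpow_natCast, hσp,
        one_zpow, one_mul]
      exact Equiv.Perm.zpow_apply_eq_self_of_apply_eq_self hj b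
    simpa using h1
  refine ⟨fun y => (i y : ZMod p), fun y => ?_⟩
  have h1 : (σ ^ (i (σ y))) (r y) = σ y := by
    have := hi (σ y)
    rwa [hrσ] at this
  have h2 : (σ ^ (1 + i y)) (r y) = σ y := by
    rw [zpow_add, zpow_one, Equiv.Perm.mul_apply, hi y]
  have h3 : (σ ^ (i (σ y) - (1 + i y))) (r y) = r y := by
    rw [sub_eq_neg_add, zpow_add, Equiv.Perm.mul_apply, h1, zpow_neg, Equiv.Perm.inv_eq_iff_eq, h2]
  have h4 := hdiv _ _ h3
  rw [← ZMod.intCast_zmod_eq_zero_iff_dvd] at h4
  push_cast at h4
  linear_combination h4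

/-- Splitting a sum along the orbits of a free action of a group of prime order. -/
theorem sum_split {Y R : Type} [Fintype Y] [AddCommMonoid R] (σ : Equiv.Perm Y) (p : ℕ)
    [Fact p.Prime] (θ : Y → ZMod p) (hθ : ∀ y, θ (σ y) = θ y + 1) (F : Y → R) :
    ∑ y, F y = ∑ y, if θ y = 0 then ∑ i ∈ Finset.range p, F ((σ ^ i) y) else 0 := by
  classical
  have hθi : ∀ (i : ℕ) (y : Y), θ ((σ ^ i) y) = θ y + i := by
    intro i
    induction i with
    | zero => intro y; simp
    | succ n ih =>
      intro y
      rw [pow_succ', Equiv.Perm.mul_apply, hθ, ih]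
      push_cast
      ring
  symm
  calc ∑ y, (if θ y = 0 then ∑ i ∈ Finset.range p, F ((σ ^ i) y) else 0)
      = ∑ y, ∑ i ∈ Finset.range p, (if θ y = 0 then F ((σ ^ i) y) else 0) := by
        apply Finset.sum_congr rfl
        intro y _
        split_ifs <;> simp
    _ = ∑ i ∈ Finset.range p, ∑ y, (if θ y = 0 then F ((σ ^ i) y) else 0) := Finset.sum_comm
    _ = ∑ i ∈ Finset.range p, ∑ y, (if θ y = (i : ZMod p) then F y else 0) := by
        apply Finset.sum_congr rfl
        intro i _
        rw [← Equiv.sum_comp (σ ^ i) (fun y => if θ y = (i : ZMod p) then F y else 0)]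
        apply Finset.sum_congr rfl
        intro y _
        simp [hθi]
    _ = ∑ y, ∑ i ∈ Finset.range p, (if θ y = (i : ZMod p) then F y else 0) := Finset.sum_comm
    _ = ∑ y, F y := by
        apply Finset.sum_congr rfl
        intro y _
        rw [Finset.sum_eq_single_of_mem (θ y).val]
        · simp
        · rw [Finset.mem_range]
          exact ZMod.val_lt _
        · intro j hj hne
          rw [if_neg]
          intro h
          apply hne
          rw [h, ZMod.val_natCast_of_lt (Finset.mem_range.mp hj)]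


section Ext

open scoped Classical in
/-- The `0`-chain (mod `m`) given by the single vertex `v`. -/
noncomputable def pt {X : Type} (m : ℕ) (v w : X) : ZMod m := if w = v then 1 else 0

variable {E X : Type} [Group E] [MulAction E X] {m : ℕ}

/-- The action of `E` on `1`-chains (mod `m`) on the edges `E × X × X`. -/
def act (g : E) (c : E → X → X → ZMod m) : E → X → X → ZMod m :=
  fun e x y => c (g⁻¹ * e) (g⁻¹ • x) (g⁻¹ • y)

theorem act_one (c : E → X → X → ZMod m) : act (1 : E) c = c := by
  funext e x y; simp [act]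

theorem act_mul (g h : E) (c : E → X → X → ZMod m) : act (g * h) c = act g (act h c) := by
  funext e x y; simp [act, mul_smul, mul_assoc]

theorem act_add (g : E) (c d : E → X → X → ZMod m) : act g (c + d) = act g c + act g d := by
  funext e x y; simp [act]

theorem act_neg (g : E) (c : E → X → X → ZMod m) : act g (-c) = - act g c := by
  funext e x y; simp [act]

theorem act_sub (g : E) (c d : E → X → X → ZMod m) : act g (c - d) = act g c - act g d := by
  funext e x y; simp [act]

theorem act_zero (g : E) : act g (0 : E → X → X → ZMod m) = 0 := by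
  funext e x y; simp [act]

theorem pt_smul (g : E) (v w : X) : pt m (g • v) w = pt m v (g⁻¹ • w) := by
  unfold pt
  congr 1
  rw [eq_iff_iff, inv_smul_eq_iff]

variable [Fintype E] [Fintype X]

/-- The boundary map from `1`-chains to `0`-chains; the edge `(e, x, y)` goes from `x` to `y`. -/
def bd (c : E → X → X → ZMod m) (v : X) : ZMod m := ∑ e, ∑ x, (c e x v - c e v x)

omit [Group E] [MulAction E X] in
theorem bd_add (c d : E → X → X → ZMod m) (v : X) : bd (c + d) v = bd c v + bd d v := by
  simp only [bd, Pi.add_apply]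
  rw [← Finset.sum_add_distrib]
  apply Finset.sum_congr rfl
  intro e _
  rw [← Finset.sum_add_distrib]
  apply Finset.sum_congr rfl
  intro x _
  ring

omit [Group E] [MulAction E X] in
theorem bd_neg (c : E → X → X → ZMod m) (v : X) : bd (-c) v = - bd c v := by
  simp only [bd, Pi.neg_apply]
  rw [← Finset.sum_neg_distrib]
  apply Finset.sum_congr rfl
  intro e _
  rw [← Finset.sum_neg_distrib]
  apply Finset.sum_congr rfl
  intro x _
  ring

theorem bd_sub (c d : E → X → X → ZMod m) (v : X) : bd (c - d) v = bd c v - bd d v := by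
  rw [sub_eq_add_neg, bd_add, bd_neg, sub_eq_add_neg]

omit [Group E] [MulAction E X] in
theorem bd_zero (v : X) : bd (0 : E → X → X → ZMod m) v = 0 := by
  simp [bd]

theorem bd_act (g : E) (c : E → X → X → ZMod m) (v : X) : bd (act g c) v = bd c (g⁻¹ • v) := by
  simp only [bd, act]
  rw [← Equiv.sum_comp (Equiv.mulLeft g⁻¹) (fun e => ∑ x, (c e x (g⁻¹ • v) - c e (g⁻¹ • v) x))]
  apply Finset.sum_congr rfl
  intro e _
  exact Equiv.sum_comp (MulAction.toPerm g⁻¹)
    (fun x => (c (g⁻¹ * e) x (g⁻¹ • v) - c (g⁻¹ * e) (g⁻¹ • v) x))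

variable (E m) in
/-- The extension of `E`: pairs `(c, g)` with boundary of `c` equal to `g x₀ - x₀`. -/
@[ext] structure Ext (x₀ : X) where
  /-- the chain -/
  c : E → X → X → ZMod m
  /-- the group element -/
  g : E
  /-- the boundary condition -/
  h : ∀ v, bd c v = pt m (g • x₀) v - pt m x₀ v

variable (E m) in
/-- The vertices of the covering graph. -/
@[ext] structure Vert (x₀ : X) where
  /-- the chain -/
  d : E → X → X → ZMod m
  /-- the vertex below -/
  v : X
  /-- the boundary condition -/
  h : ∀ w, bd d w = pt m v w - pt m x₀ w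

instance (x₀ : X) : Mul (Ext E m x₀) where
  mul a b := ⟨a.c + act a.g b.c, a.g * b.g, fun v => by
    rw [bd_add, bd_act, a.h, b.h, mul_smul, pt_smul a.g, pt_smul a.g]
    ring⟩

instance (x₀ : X) : One (Ext E m x₀) where
  one := ⟨0, 1, fun v => by rw [bd_zero, one_smul, sub_self]⟩

instance (x₀ : X) : Inv (Ext E m x₀) where
  inv a := ⟨- act a.g⁻¹ a.c, a.g⁻¹, fun v => by
    rw [bd_neg, bd_act, a.h, ← pt_smul, ← pt_smul, inv_smul_smul]
    ring⟩

theorem Ext.mul_c {x₀ : X} (a b : Ext E m x₀) : (a * b).c = a.c + act a.g b.c := rfl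
theorem Ext.mul_g {x₀ : X} (a b : Ext E m x₀) : (a * b).g = a.g * b.g := rfl
theorem Ext.one_c {x₀ : X} : (1 : Ext E m x₀).c = 0 := rfl
theorem Ext.one_g {x₀ : X} : (1 : Ext E m x₀).g = 1 := rfl
theorem Ext.inv_c {x₀ : X} (a : Ext E m x₀) : (a⁻¹).c = - act a.g⁻¹ a.c := rfl
theorem Ext.inv_g {x₀ : X} (a : Ext E m x₀) : (a⁻¹).g = a.g⁻¹ := rfl

instance (x₀ : X) : Group (Ext E m x₀) :=
  Group.ofLeftAxioms
    (by
      intro a b c
      apply Ext.ext
      · simp only [Ext.mul_c, Ext.mul_g, act_add, act_mul, add_assoc]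
      · simp only [Ext.mul_g, mul_assoc])
    (by
      intro a
      apply Ext.ext
      · simp only [Ext.mul_c, Ext.one_c, Ext.one_g, act_one, zero_add]
      · simp only [Ext.mul_g, Ext.one_g, one_mul])
    (by
      intro a
      apply Ext.ext
      · simp only [Ext.mul_c, Ext.inv_c, Ext.inv_g, Ext.one_c, neg_add_cancel]
      · simp only [Ext.mul_g, Ext.inv_g, Ext.one_g, inv_mul_cancel])

instance (x₀ : X) : MulAction (Ext E m x₀) (Vert E m x₀) where
  smul a y := ⟨a.c + act a.g y.d, a.g • y.v, fun w => by
    rw [bd_add, bd_act, a.h, y.h, pt_smul a.g y.v, pt_smul a.g x₀]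
    ring⟩
  one_smul y := by
    apply Vert.ext
    · change (1 : Ext E m x₀).c + act (1 : Ext E m x₀).g y.d = y.d
      simp only [Ext.one_c, Ext.one_g, act_one, zero_add]
    · change (1 : Ext E m x₀).g • y.v = y.v
      simp only [Ext.one_g, one_smul]
  mul_smul a b y := by
    apply Vert.ext
    · change (a * b).c + act (a * b).g y.d = a.c + act a.g (b.c + act b.g y.d)
      simp only [Ext.mul_c, Ext.mul_g, act_add, act_mul, add_assoc]
    · change (a * b).g • y.v = a.g • (b.g • y.v)
      simp only [Ext.mul_g, mul_smul]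

theorem Vert.smul_d {x₀ : X} (a : Ext E m x₀) (y : Vert E m x₀) :
    (a • y).d = a.c + act a.g y.d := rfl
theorem Vert.smul_v {x₀ : X} (a : Ext E m x₀) (y : Vert E m x₀) :
    (a • y).v = a.g • y.v := rfl

variable (E m) in
/-- The projection. -/
def proj (x₀ : X) : Ext E m x₀ →* E where
  toFun a := a.g
  map_one' := rfl
  map_mul' _ _ := rfl

theorem proj_surjective (x₀ : X) : Function.Surjective (proj E m x₀) := by
  classical
  intro g
  refine ⟨⟨fun e x y => if e = 1 then pt m x₀ x * pt m (g • x₀) y else 0, g, ?_⟩, rfl⟩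
  intro v
  unfold bd
  rw [Finset.sum_eq_single (1 : E)]
  · simp only [if_true, Finset.sum_sub_distrib, ← Finset.sum_mul, ← Finset.mul_sum]
    have h1 : ∀ w : X, ∑ x : X, pt m w x = 1 := by
      intro w
      simp [pt]
    rw [h1, h1]
    ring
  · intro b _ hb
    simp [hb]
  · intro h
    exact absurd (Finset.mem_univ _) h

theorem proj_ker_comm (x₀ : X) (a b : (proj E m x₀).ker) : a * b = b * a := by
  have ha : a.1.g = 1 := a.2
  have hb : b.1.g = 1 := b.2
  apply Subtype.ext
  apply Ext.ext
  · change a.1.c + act a.1.g b.1.c = b.1.c + act b.1.g a.1.c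
    rw [ha, hb, act_one, act_one, add_comm]
  · change a.1.g * b.1.g = b.1.g * a.1.g
    rw [ha, hb]

variable (E m) in
/-- The base vertex of the covering graph. -/
def baseVert (x₀ : X) : Vert E m x₀ := ⟨0, x₀, fun w => by rw [bd_zero, sub_self]⟩

variable (E m) in
/-- The canonical lift of the stabilizer. -/
def liftStab (x₀ : X) : stabilizer E x₀ →* Ext E m x₀ where
  toFun h := ⟨0, h.1, fun v => by
    have : h.1 • x₀ = x₀ := h.2
    rw [bd_zero, this, sub_self]⟩
  map_one' := rfl
  map_mul' a b := by
    apply Ext.ext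
    · change (0 : E → X → X → ZMod m) = 0 + act a.1 0
      rw [act_zero, add_zero]
    · rfl

theorem liftStab_proj (x₀ : X) (h : stabilizer E x₀) : proj E m x₀ (liftStab E m x₀ h) = h.1 := rfl

theorem liftStab_smul (x₀ : X) (h : stabilizer E x₀) :
    liftStab E m x₀ h • baseVert E m x₀ = baseVert E m x₀ := by
  apply Vert.ext
  · change (0 : E → X → X → ZMod m) + act h.1 0 = 0
    rw [act_zero, add_zero]
  · exact h.2

theorem ext_finite [NeZero m] (x₀ : X) : Finite (Ext E m x₀) := by
  have : Function.Injective (fun a : Ext E m x₀ => (a.c, a.g)) := by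
    intro a b hab
    have h1 := congrArg Prod.fst hab
    have h2 := congrArg Prod.snd hab
    exact Ext.ext h1 h2
  exact Finite.of_injective _ this

omit [Group E] [MulAction E X] in
theorem vert_finite [NeZero m] (x₀ : X) : Finite (Vert E m x₀) := by
  have : Function.Injective (fun a : Vert E m x₀ => (a.d, a.v)) := by
    intro a b hab
    have h1 := congrArg Prod.fst hab
    have h2 := congrArg Prod.snd hab
    exact Vert.ext h1 h2
  exact Finite.of_injective _ this

end Ext


section Lemmas

variable {E X : Type} [Group E] [MulAction E X] {m : ℕ} [Fintype E] [Fintype X]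

theorem Ext.pow_c {x₀ : X} (a : Ext E m x₀) (n : ℕ) :
    (a ^ n).c = ∑ i ∈ Finset.range n, act (a.g ^ i) a.c ∧ (a ^ n).g = a.g ^ n := by
  induction n with
  | zero => exact ⟨by simp [Ext.one_c], by simp [Ext.one_g]⟩
  | succ n ih =>
    constructor
    · rw [pow_succ, Ext.mul_c, ih.1, ih.2, Finset.sum_range_succ]
    · rw [pow_succ, Ext.mul_g, ih.2, pow_succ]

/-- Existence: an element of prime order outside the kernel has a fixed vertex. -/
theorem exists_fixed {x₀ : X} (a : Ext E m x₀) (p : ℕ) [Fact p.Prime] (hpm : p ∣ m)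
    (ha : a ^ p = 1) (hg : a.g ≠ 1) : ∃ x : X, a.g • x = x := by
  classical
  by_contra hcon
  push Not at hcon
  have hgp : a.g ^ p = 1 := by
    rw [← (Ext.pow_c a p).2, ha]; rfl
  have hNc : ∑ i ∈ Finset.range p, act (a.g ^ i) a.c = 0 := by
    rw [← (Ext.pow_c a p).1, ha]; rfl
  -- level function on X
  obtain ⟨θ, hθ⟩ := exists_theta (MulAction.toPerm a.g : Equiv.Perm X) p (by
    ext x
    have : (MulAction.toPerm a.g : Equiv.Perm X) ^ p = MulAction.toPerm (a.g ^ p) :=
      ((MulAction.toPermHom E X).map_pow a.g p).symm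
    rw [this, hgp]; simp) (by intro x; exact hcon x)
  -- level function on E × X × X
  let σ : Equiv.Perm (E × X × X) :=
    (Equiv.mulLeft a.g⁻¹).prodCongr
      ((MulAction.toPerm a.g⁻¹ : Equiv.Perm X).prodCongr (MulAction.toPerm a.g⁻¹ : Equiv.Perm X))
  have hσ1 : ∀ (t : E × X × X),
      σ t = ((a.g)⁻¹ * t.1, (a.g)⁻¹ • t.2.1, (a.g)⁻¹ • t.2.2) := fun t => rfl
  have hσ : ∀ (i : ℕ) (t : E × X × X),
      (σ ^ i) t = ((a.g ^ i)⁻¹ * t.1, (a.g ^ i)⁻¹ • t.2.1, (a.g ^ i)⁻¹ • t.2.2) := by
    intro i
    induction i with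
    | zero => intro t; simp
    | succ n ih =>
      intro t
      rw [pow_succ', Equiv.Perm.mul_apply, ih, hσ1]
      simp only [pow_succ, mul_inv_rev, mul_smul, mul_assoc]
  obtain ⟨θ', hθ'⟩ := exists_theta σ p (by
    ext1 t
    rw [hσ, hgp]; simp) (by
    intro t ht
    have h1 : a.g⁻¹ * t.1 = t.1 := congrArg Prod.fst ht
    apply hg
    have h2 : a.g⁻¹ = 1 := by simpa using h1
    simpa using h2)
  let φ : ZMod m →+* ZMod p := ZMod.castHom hpm (ZMod p)
  let F : E × X × X → ZMod p := fun t => (θ t.2.2 - θ t.2.1) * φ (a.c t.1 t.2.1 t.2.2)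
  have hF0 : ∑ t, F t = 0 := by
    rw [sum_split σ p θ' hθ' F]
    apply Finset.sum_eq_zero
    intro t _
    split_ifs
    · have hθi : ∀ (i : ℕ) (x : X), θ ((a.g ^ i)⁻¹ • x) = θ x - i := by
        intro i
        induction i with
        | zero => intro x; simp
        | succ n ih =>
          intro x
          have h1 : θ (a.g • (a.g⁻¹ • ((a.g ^ n)⁻¹ • x))) = θ (a.g⁻¹ • ((a.g ^ n)⁻¹ • x)) + 1 :=
            hθ _
          rw [smul_inv_smul, ih] at h1
          rw [pow_succ, mul_inv_rev, mul_smul]
          push_cast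
          linear_combination -h1
      have h2 : ∀ i ∈ Finset.range p, F ((σ ^ i) t)
          = (θ t.2.2 - θ t.2.1) * φ (act (a.g ^ i) a.c t.1 t.2.1 t.2.2) := by
        intro i _
        simp only [F, hσ, hθi, act]
        ring
      rw [Finset.sum_congr rfl h2, ← Finset.mul_sum, ← map_sum]
      have h3 : ∑ i ∈ Finset.range p, act (a.g ^ i) a.c t.1 t.2.1 t.2.2 = 0 := by
        have := congrFun (congrFun (congrFun hNc t.1) t.2.1) t.2.2
        simpa [Finset.sum_apply] using this
      rw [h3, map_zero, mul_zero]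
    · rfl
  have hF1 : ∑ t, F t = 1 := by
    have h1 : ∑ t, F t = ∑ v, θ v * φ (bd a.c v) := by
      simp only [bd, map_sum, Finset.mul_sum, map_sub, mul_sub, Finset.sum_sub_distrib]
      simp only [F, Fintype.sum_prod_type, sub_mul, Finset.sum_sub_distrib]
      congr 1
      · rw [Finset.sum_comm (s := (Finset.univ : Finset X)) (t := (Finset.univ : Finset E))]
        apply Finset.sum_congr rfl
        intro e _
        rw [Finset.sum_comm]
      · rw [Finset.sum_comm (s := (Finset.univ : Finset X)) (t := (Finset.univ : Finset E))]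
    rw [h1]
    have h2 : ∀ v, θ v * φ (bd a.c v)
        = (if v = a.g • x₀ then θ v else 0) - (if v = x₀ then θ v else 0) := by
      intro v
      rw [a.h, pt, pt, map_sub]
      split_ifs <;> simp
    rw [Finset.sum_congr rfl (fun v _ => h2 v), Finset.sum_sub_distrib]
    simp only [Finset.sum_ite_eq', Finset.mem_univ, if_true]
    have h3 : θ (a.g • x₀) = θ x₀ + 1 := hθ x₀
    rw [h3]; ring
  rw [hF0] at hF1
  exact zero_ne_one hF1

/-- Uniqueness: two vertices of the cover fixed by the same element whose image has prime order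
lie above the same vertex. -/
theorem unique_fixed {x₀ : X} (a : Ext E m x₀) (p : ℕ) [Fact p.Prime] (hpm : p ∣ m)
    (hgp : a.g ^ p = 1) (hg : a.g ≠ 1) (y₁ y₂ : Vert E m x₀) (h₁ : a • y₁ = y₁)
    (h₂ : a • y₂ = y₂) : y₁.v = y₂.v := by
  classical
  by_contra hne
  have hd₁ : a.c + act a.g y₁.d = y₁.d := congrArg Vert.d h₁
  have hd₂ : a.c + act a.g y₂.d = y₂.d := congrArg Vert.d h₂
  have hv₁ : a.g • y₁.v = y₁.v := congrArg Vert.v h₁
  let f : E → X → X → ZMod m := y₁.d - y₂.d
  have hf : act a.g f = f := by
    simp only [f, act_sub]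
    have : act a.g y₁.d - act a.g y₂.d = (a.c + act a.g y₁.d) - (a.c + act a.g y₂.d) := by abel
    rw [this, hd₁, hd₂]
  have hbd : bd f y₁.v = 1 := by
    simp only [f, bd_sub, y₁.h, y₂.h, pt, if_neg hne]
    simp
  let φ : ZMod m →+* ZMod p := ZMod.castHom hpm (ZMod p)
  let σ : Equiv.Perm (E × X) :=
    (Equiv.mulLeft a.g⁻¹).prodCongr (MulAction.toPerm a.g⁻¹ : Equiv.Perm X)
  have hσ1 : ∀ (t : E × X), σ t = ((a.g)⁻¹ * t.1, (a.g)⁻¹ • t.2) := fun t => rfl
  have hσ : ∀ (i : ℕ) (t : E × X), (σ ^ i) t = ((a.g ^ i)⁻¹ * t.1, (a.g ^ i)⁻¹ • t.2) := by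
    intro i
    induction i with
    | zero => intro t; simp
    | succ n ih =>
      intro t
      rw [pow_succ', Equiv.Perm.mul_apply, ih, hσ1]
      simp only [pow_succ, mul_inv_rev, mul_smul, mul_assoc]
  obtain ⟨θ', hθ'⟩ := exists_theta σ p (by
    ext1 t
    rw [hσ, hgp]; simp) (by
    intro t ht
    have h1 : a.g⁻¹ * t.1 = t.1 := congrArg Prod.fst ht
    apply hg
    have h2 : a.g⁻¹ = 1 := by simpa using h1
    simpa using h2)
  let F : E × X → ZMod p := fun t => φ (f t.1 t.2 y₁.v - f t.1 y₁.v t.2)
  have hFσ : ∀ t, F (σ t) = F t := by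
    intro t
    change φ (f (a.g⁻¹ * t.1) (a.g⁻¹ • t.2) y₁.v - f (a.g⁻¹ * t.1) y₁.v (a.g⁻¹ • t.2)) = _
    have h1 : a.g⁻¹ • y₁.v = y₁.v := by rw [inv_smul_eq_iff, hv₁]
    have h2 : f (a.g⁻¹ * t.1) (a.g⁻¹ • t.2) y₁.v = f t.1 t.2 y₁.v := by
      conv_rhs => rw [← hf]
      simp only [act, h1]
    have h3 : f (a.g⁻¹ * t.1) y₁.v (a.g⁻¹ • t.2) = f t.1 y₁.v t.2 := by
      conv_rhs => rw [← hf]
      simp only [act, h1]
    rw [h2, h3]
  have hFσi : ∀ (i : ℕ) t, F ((σ ^ i) t) = F t := by
    intro i
    induction i with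
    | zero => intro t; simp
    | succ n ih =>
      intro t
      rw [pow_succ', Equiv.Perm.mul_apply, hFσ, ih]
  have hF0 : ∑ t, F t = 0 := by
    rw [sum_split σ p θ' hθ' F]
    apply Finset.sum_eq_zero
    intro t _
    split_ifs
    · rw [Finset.sum_congr rfl (fun i _ => hFσi i t)]
      simp
    · rfl
  have hF1 : ∑ t, F t = 1 := by
    have h1 : ∑ t, F t = φ (bd f y₁.v) := by
      simp only [F, bd, map_sum, Fintype.sum_prod_type]
    rw [h1, hbd, map_one]
  rw [hF0] at hF1
  exact zero_ne_one hF1

end Lemmas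

section Tower

/-- Iterating the extension: every subgroup of bounded order of `F` meeting the kernel trivially
has image fixing a point. -/
theorem tower (s : ℕ) : ∀ (E X : Type) [Group E] [Finite E] [MulAction E X] [Finite X] (x₀ : X),
    ∃ (F : Type) (_ : Group F) (_ : Finite F) (ρ : F →* E) (ι : stabilizer E x₀ →* F),
      Function.Surjective ρ ∧ Group.IsSolvable ρ.ker ∧ (∀ h, ρ (ι h) = h.1) ∧
      (∀ S : Subgroup F, Nat.card S ≤ s → S ⊓ ρ.ker = ⊥ → ∃ x : X, ∀ f ∈ S, ρ f • x = x) := by
  induction s with
  | zero =>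
    intro E X _ _ _ _ x₀
    refine ⟨E, inferInstance, inferInstance, MonoidHom.id E, (stabilizer E x₀).subtype,
      fun x => ⟨x, rfl⟩, ?_, fun h => rfl, ?_⟩
    · rw [MonoidHom.ker_id]; infer_instance
    · intro S hS
      exact absurd (Nat.card_pos (α := S)) (by omega)
  | succ s ih =>
    intro E X _ _ _ _ x₀
    obtain ⟨_⟩ := nonempty_fintype E
    obtain ⟨_⟩ := nonempty_fintype X
    have hm : NeZero (Nat.card E) := ⟨Nat.card_pos.ne'⟩
    have _ := ext_finite (E := E) (m := Nat.card E) x₀
    have _ := vert_finite (E := E) (m := Nat.card E) x₀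
    obtain ⟨F, _, _, ρ', ι', hsurj', hsol', hι', hfix'⟩ :=
      ih (Ext E (Nat.card E) x₀) (Vert E (Nat.card E) x₀) (baseVert E (Nat.card E) x₀)
    refine ⟨F, inferInstance, inferInstance, (proj E (Nat.card E) x₀).comp ρ',
      ι'.comp ((liftStab E (Nat.card E) x₀).codRestrict _ (fun h => liftStab_smul x₀ h)),
      (proj_surjective x₀).comp hsurj', ?_, ?_, ?_⟩
    · -- solvability of the kernel
      let f : ρ'.ker →* ((proj E (Nat.card E) x₀).comp ρ').ker :=
        Subgroup.inclusion (by
          intro z hz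
          rw [MonoidHom.mem_ker] at hz ⊢
          rw [MonoidHom.comp_apply, hz, map_one])
      let g : ((proj E (Nat.card E) x₀).comp ρ').ker →* (proj E (Nat.card E) x₀).ker :=
        (ρ'.comp (Subgroup.subtype _)).codRestrict _ (fun z => z.2)
      have hab : Group.IsSolvable (proj E (Nat.card E) x₀).ker :=
        Group.isSolvable_of_comm (proj_ker_comm x₀)
      refine Group.isSolvable_of_ker_le_range f g ?_
      intro z hz
      have hz' : ρ' z.1 = 1 := congrArg Subtype.val (MonoidHom.mem_ker.mp hz)
      exact ⟨⟨z.1, hz'⟩, rfl⟩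
    · intro h
      rw [MonoidHom.comp_apply, MonoidHom.comp_apply, hι']
      rfl
    · intro S hScard hS
      let a1 : MulAction S (Vert E (Nat.card E) x₀) :=
        MulAction.compHom _ (ρ'.comp S.subtype)
      let a2 : MulAction S X :=
        MulAction.compHom _ (((proj E (Nat.card E) x₀).comp ρ').comp S.subtype)
      have hnot : ∀ z : S, (orderOf z).Prime → (ρ' z.1).g ≠ 1 := by
        intro z hz h1
        have hmem : z.1 ∈ S ⊓ ((proj E (Nat.card E) x₀).comp ρ').ker := ⟨z.2, h1⟩
        rw [hS, Subgroup.mem_bot] at hmem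
        have : z = 1 := Subtype.ext hmem
        rw [this, orderOf_one] at hz
        exact Nat.not_prime_one hz
      have hpow : ∀ z : S, (ρ' z.1) ^ (orderOf z) = 1 := by
        intro z
        rw [← map_pow]
        have : z.1 ^ orderOf z = 1 := by
          have := pow_orderOf_eq_one z
          exact congrArg Subtype.val this
        rw [this, map_one]
      have hpowg : ∀ z : S, (ρ' z.1).g ^ (orderOf z) = 1 := by
        intro z
        rw [← (Ext.pow_c (ρ' z.1) _).2, hpow]; rfl
      have hdvd : ∀ z : S, (orderOf z).Prime → orderOf z ∣ Nat.card E := by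
        intro z hz
        have : orderOf (ρ' z.1).g = orderOf z := by
          have := Fact.mk hz
          exact orderOf_eq_prime (hpowg z) (hnot z hz)
        rw [← this]
        exact orderOf_dvd_natCard _
      obtain ⟨x, hx⟩ := abstract_fixed (S := S) (Y := Vert E (Nat.card E) x₀) (X := X)
        (fun y => y.v) (fun z y => rfl) ⟨x₀⟩
        (by
          intro z hz y₁ y₂ h₁ h₂
          have := Fact.mk hz
          exact unique_fixed (ρ' z.1) (orderOf z) (hdvd z hz) (hpowg z) (hnot z hz) y₁ y₂ h₁ h₂)
        (by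
          intro B hB
          have hcard : Nat.card (B.map S.subtype) ≤ s := by
            rw [Subgroup.card_subtype]
            have h1 : Nat.card B < Nat.card S := by
              refine lt_of_le_of_ne (Subgroup.card_le_card_group B) ?_
              intro h
              exact hB (Subgroup.eq_top_of_card_eq B h)
            omega
          obtain ⟨y, hy⟩ := hfix' (B.map S.subtype) hcard (by
            rw [eq_bot_iff]
            rintro z ⟨hz1, hz2⟩
            rw [← hS]
            refine ⟨?_, ?_⟩
            · obtain ⟨w, _, rfl⟩ := hz1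
              exact w.2
            · have : ρ' z = 1 := hz2
              change (proj E (Nat.card E) x₀) (ρ' z) = 1
              rw [this, map_one])
          exact ⟨y, fun b hb => hy b.1 ⟨b, hb, rfl⟩⟩)
        (by
          intro z hz
          have := Fact.mk hz
          exact exists_fixed (ρ' z.1) (orderOf z) (hdvd z hz) (hpow z) (hnot z hz))
      exact ⟨x, fun f hf => hx ⟨f, hf⟩⟩

end Tower

section Embed

/-- No nonabelian finite simple subgroups. -/
def NS (G : Type) [Group G] : Prop :=
  ∀ S : Subgroup G, Finite S → IsSimpleGroup S → ∀ a b : S, a * b = b * a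

theorem NS.comm {H : Type} [Group H] (h : NS H) {S : Type} [Group S] [Finite S] [IsSimpleGroup S]
    (ψ : S →* H) (hψ : Function.Injective ψ) (a b : S) : a * b = b * a := by
  have e : S ≃* ψ.range := MonoidHom.ofInjective hψ
  have hf : Finite ψ.range := Finite.of_equiv _ e.toEquiv
  have hs : IsSimpleGroup ψ.range := e.symm.isSimpleGroup
  have := h ψ.range hf hs (e a) (e b)
  apply e.injective
  rw [map_mul, map_mul, this]

theorem NS.of_injective {H D : Type} [Group H] [Group D] (h : NS H) (ψ : D →* H)
    (hψ : Function.Injective ψ) : NS D := by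
  intro S hS hs a b
  exact h.comm (ψ.comp S.subtype) (hψ.comp S.subtype_injective) a b

/-- A perfect group with solvable quotient image. -/
theorem perfect_quotient {D Q : Type} [Group D] [Group Q] [Group.IsSolvable Q]
    (hD : commutator D = ⊤) (q : D →* Q) (hq : Function.Surjective q) : Subsingleton Q := by
  by_contra hns
  have hnt : Nontrivial Q := not_subsingleton_iff_nontrivial.mp hns
  have hlt := Group.IsSolvable.commutator_lt_top_of_nontrivial Q
  have : commutator Q = ⊤ := by
    have h1 : (commutator D).map q = commutator Q := by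
      rw [commutator_def, commutator_def, Subgroup.map_commutator,
        Subgroup.map_top_of_surjective q hq]
    rw [← h1, hD, Subgroup.map_top_of_surjective q hq]
  rw [this] at hlt
  exact lt_irrefl _ hlt

/-- A perfect finite group embeds in a finite alternating group of large degree. -/
theorem exists_alt (H : Type) [Group H] [Finite H] (hperf : commutator H = ⊤) :
    ∃ (A : Type) (_ : Group A) (_ : Finite A) (i : H →* A), Function.Injective i ∧
      IsSimpleGroup A ∧ commutator A = ⊤ ∧ Nat.card H < Nat.card A := by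
  classical
  obtain ⟨_⟩ := nonempty_fintype H
  let i₀ : H →* Equiv.Perm (H ⊕ Fin 5) :=
    (Equiv.Perm.sumCongrHom H (Fin 5)).comp
      ((MonoidHom.inl (Equiv.Perm H) (Equiv.Perm (Fin 5))).comp (MulAction.toPermHom H H))
  have hi₀ : Function.Injective i₀ := by
    intro a b hab
    have h1 := congrArg (fun f : Equiv.Perm (H ⊕ Fin 5) => f (Sum.inl 1)) hab
    have h2 : (Sum.inl (a * 1) : H ⊕ Fin 5) = Sum.inl (b * 1) := h1
    simpa using h2
  have halt : ∀ h, i₀ h ∈ alternatingGroup (H ⊕ Fin 5) := by
    intro h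
    have h1 := Abelianization.commutator_subset_ker (Equiv.Perm.sign.comp i₀)
    rw [hperf] at h1
    exact h1 (Subgroup.mem_top h)
  have hcard : Nat.card (H ⊕ Fin 5) = Nat.card H + 5 := by
    rw [Nat.card_sum]; simp
  have h5 : 5 ≤ Nat.card (H ⊕ Fin 5) := by rw [hcard]; omega
  refine ⟨alternatingGroup (H ⊕ Fin 5), inferInstance, inferInstance,
    i₀.codRestrict _ halt, ?_, alternatingGroup.isSimpleGroup h5, ?_, ?_⟩
  · intro a b hab
    exact hi₀ (congrArg Subtype.val hab)
  · exact commutator_alternatingGroup_eq_top h5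
  · have hnt : Nontrivial (H ⊕ Fin 5) := ⟨⟨Sum.inr 0, Sum.inr 1, by simp⟩⟩
    have h2 := two_mul_nat_card_alternatingGroup (α := H ⊕ Fin 5)
    rw [Nat.card_perm, hcard] at h2
    have h3 : (Nat.card H + 5) * 2 ≤ (Nat.card H + 5).factorial := by
      rw [show Nat.card H + 5 = (Nat.card H + 4) + 1 from rfl, Nat.factorial_succ]
      apply Nat.mul_le_mul_left
      calc 2 = Nat.factorial 2 := rfl
        _ ≤ _ := Nat.factorial_le (by omega)
    omega

/-- Main embedding step. -/
theorem embed (H : Type) [Group H] [Finite H] (hNS : NS H) (hperf : commutator H = ⊤) :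
    ∃ (D : Type) (_ : Group D) (_ : Finite D) (j : H →* D), Function.Injective j ∧ NS D ∧
      commutator D = ⊤ ∧ (∀ h : H, h ≠ 1 → ∀ x : H, j x ∈ Subgroup.normalClosure {j h}) ∧
      Nat.card H < Nat.card D := by
  obtain ⟨A, _, _, i, hi, hsimple, hcomm, hcard⟩ := exists_alt H hperf
  obtain ⟨F, _, _, ρ, ι, hsurj, hsol, hι, hfix⟩ :=
    tower (Nat.card A) A (A ⧸ i.range) ((1 : A) : A ⧸ i.range)
  have hstab : stabilizer A (((1 : A) : A ⧸ i.range)) = i.range := stabilizer_quotient _
  -- lift of H
  let j₀ : H →* F := ι.comp (i.codRestrict _ (fun h => by rw [hstab]; exact ⟨h, rfl⟩))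
  have hj₀ : ∀ h, ρ (j₀ h) = i h := fun h => hι _
  -- F has no nonabelian simple subgroups
  have hF : NS F := by
    intro S _ hS
    have hN : (ρ.ker.subgroupOf S).Normal := inferInstance
    rcases hN.eq_bot_or_eq_top with h | h
    · have hbot : S ⊓ ρ.ker = ⊥ := by
        rw [eq_bot_iff]
        rintro z ⟨hz1, hz2⟩
        have : (⟨z, hz1⟩ : S) ∈ ρ.ker.subgroupOf S := hz2
        rw [h, Subgroup.mem_bot] at this
        exact congrArg Subtype.val this
      have hinj : Function.Injective (ρ.comp S.subtype) := by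
        rw [← MonoidHom.ker_eq_bot_iff, eq_bot_iff]
        intro z hz
        have : z ∈ ρ.ker.subgroupOf S := hz
        rwa [h] at this
      obtain ⟨x, hx⟩ := hfix S (Nat.card_le_card_of_injective _ hinj) hbot
      obtain ⟨a, rfl⟩ := QuotientGroup.mk_surjective x
      have hmem : ∀ z : S, a⁻¹ * ρ z.1 * a ∈ i.range := by
        intro z
        have h1 : ((ρ z.1 * a : A) : A ⧸ i.range) = (a : A ⧸ i.range) := hx z.1 z.2
        have h2 := QuotientGroup.eq.mp h1.symm
        rwa [← mul_assoc] at h2
      let φ : S →* i.range := ((MulAut.conj a⁻¹).toMonoidHom.comp (ρ.comp S.subtype)).codRestrict _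
        (fun z => by
          have := hmem z
          simpa [MulAut.conj_apply] using this)
      have hφ : Function.Injective φ := by
        intro z w hzw
        have h1 : a⁻¹ * ρ z.1 * a⁻¹⁻¹ = a⁻¹ * ρ w.1 * a⁻¹⁻¹ := congrArg Subtype.val hzw
        apply hinj
        simpa using h1
      exact hNS.comm ((MonoidHom.ofInjective hi).symm.toMonoidHom.comp φ)
        ((MonoidHom.ofInjective hi).symm.injective.comp hφ)
    · have hle : S ≤ ρ.ker := by
        intro z hz
        have : (⟨z, hz⟩ : S) ∈ ρ.ker.subgroupOf S := h ▸ Subgroup.mem_top _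
        exact this
      have hsolS : Group.IsSolvable S :=
        Group.isSolvable_of_isSolvable_injective (Subgroup.inclusion_injective hle)
      exact IsSimpleGroup.comm_iff_isSolvable.mpr hsolS
  -- choose a minimal supplement containing the lift of `H`
  have hne : ({D : Subgroup F | j₀.range ≤ D ∧ D.map ρ = ⊤}).Nonempty :=
    ⟨⊤, le_top, Subgroup.map_top_of_surjective ρ hsurj⟩
  obtain ⟨D, ⟨hD1, hD2⟩, hDmin⟩ :=
    (wellFounded_lt (α := Subgroup F)).has_min _ hne
  have hrange : ⁅j₀.range, j₀.range⁆ = j₀.range := by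
    rw [MonoidHom.range_eq_map, ← Subgroup.map_commutator, ← commutator_def, hperf]
  have hDD : ⁅D, D⁆ = D := by
    by_contra hne'
    have hlt : ⁅D, D⁆ < D := lt_of_le_of_ne (Subgroup.commutator_le_self D) hne'
    refine hDmin ⁅D, D⁆ ⟨?_, ?_⟩ hlt
    · rw [← hrange]
      exact Subgroup.commutator_mono hD1 hD1
    · rw [Subgroup.map_commutator, hD2, ← commutator_def, hcomm]
  have hDperf : commutator D = ⊤ := by
    apply Subgroup.map_injective D.subtype_injective
    rw [commutator_def, Subgroup.map_commutator, ← MonoidHom.range_eq_map, Subgroup.range_subtype,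
      hDD]
  let j : H →* D := j₀.codRestrict D (fun h => hD1 ⟨h, rfl⟩)
  have hj₀inj : Function.Injective j₀ := by
    intro a b hab
    apply hi
    rw [← hj₀, ← hj₀, hab]
  have hρD : Function.Surjective (ρ.comp D.subtype) := by
    intro a
    have : a ∈ D.map ρ := hD2 ▸ Subgroup.mem_top a
    obtain ⟨d, hd, rfl⟩ := this
    exact ⟨⟨d, hd⟩, rfl⟩
  refine ⟨D, inferInstance, inferInstance, j, ?_, hF.of_injective D.subtype D.subtype_injective,
    hDperf, ?_, ?_⟩
  · intro a b hab
    exact hj₀inj (congrArg Subtype.val hab)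
  · intro h hh x
    let N := Subgroup.normalClosure {j h}
    have hNmap : N.map (ρ.comp D.subtype) = ⊤ := by
      have hnorm : (N.map (ρ.comp D.subtype)).Normal :=
        Subgroup.Normal.map inferInstance _ hρD
      rcases hnorm.eq_bot_or_eq_top with h1 | h1
      · exfalso
        have h2 : (ρ.comp D.subtype) (j h) ∈ N.map (ρ.comp D.subtype) :=
          ⟨j h, Subgroup.subset_normalClosure rfl, rfl⟩
        rw [h1, Subgroup.mem_bot] at h2
        have h3 : i h = 1 := by rw [← hj₀]; exact h2
        exact hh (hi (by rw [h3, map_one]))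
      · exact h1
    let M := (ρ.comp D.subtype).ker
    have hMsol : Group.IsSolvable M := by
      let f : M →* ρ.ker := (D.subtype.comp M.subtype).codRestrict _ (fun z => z.2)
      have hf : Function.Injective f := by
        intro a b hab
        have h1 : (f a).1 = (f b).1 := by rw [hab]
        exact Subtype.ext (Subtype.ext h1)
      exact Group.isSolvable_of_isSolvable_injective hf
    have hq : Function.Surjective ((QuotientGroup.mk' N).comp M.subtype) := by
      intro z
      obtain ⟨d, rfl⟩ := QuotientGroup.mk'_surjective N z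
      have : (ρ.comp D.subtype) d ∈ N.map (ρ.comp D.subtype) := hNmap ▸ Subgroup.mem_top _
      obtain ⟨n, hn, hnd⟩ := this
      refine ⟨⟨d * n⁻¹, ?_⟩, ?_⟩
      · rw [MonoidHom.mem_ker, map_mul, map_inv, hnd, mul_inv_cancel]
      · change QuotientGroup.mk' N (d * n⁻¹) = QuotientGroup.mk' N d
        rw [map_mul, (QuotientGroup.eq_one_iff (N := N) n⁻¹).mpr (N.inv_mem hn) |> fun h => (h :
          QuotientGroup.mk' N n⁻¹ = 1), mul_one]
    have hsolQ : Group.IsSolvable (D ⧸ N) := Group.isSolvable_of_surjective hq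
    have hsub : Subsingleton (D ⧸ N) :=
      perfect_quotient hDperf (QuotientGroup.mk' N) (QuotientGroup.mk'_surjective N)
    rw [← QuotientGroup.eq_one_iff (N := N)]
    exact Subsingleton.elim _ _
  · exact lt_of_lt_of_le hcard (Nat.card_le_card_of_surjective _ hρD)

end Embed

section Limit

/-- The union of a chain of finite groups. -/
theorem exists_limit (G : ℕ → Type) [∀ n, Group (G n)] [∀ n, Finite (G n)]
    (f : ∀ n, G n →* G (n + 1)) (hf : ∀ n, Function.Injective (f n)) (hns : ∀ n, NS (G n))
    (hnc : ∀ n, ∀ h : G n, h ≠ 1 → ∀ x : G n, f n x ∈ Subgroup.normalClosure {f n h})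
    (hcard : ∀ n, Nat.card (G n) < Nat.card (G (n + 1))) :
    ∃ (L : Type) (_ : Group L), Infinite L ∧ (∀ K : Subgroup L, K.FG → Finite K) ∧
      IsSimpleGroup L ∧ NS L := by
  classical
  let F : ∀ i j, i ≤ j → (G i →* G j) := fun i j h =>
    Nat.leRecOn (C := fun k => G i →* G k) h (fun {k} g => (f k).comp g) (MonoidHom.id (G i))
  have hF0 : ∀ i, F i i le_rfl = MonoidHom.id (G i) := fun i =>
    Nat.leRecOn_self (C := fun k => G i →* G k) _
  have hFs : ∀ i j (h : i ≤ j) (h' : i ≤ j + 1), F i (j + 1) h' = (f j).comp (F i j h) :=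
    fun i j h h' => Nat.leRecOn_succ (C := fun k => G i →* G k) h _
  have hFt : ∀ i j k (hij : i ≤ j) (hjk : j ≤ k) (x : G i),
      F j k hjk (F i j hij x) = F i k (hij.trans hjk) x := by
    intro i j k hij hjk x
    induction k, hjk using Nat.le_induction with
    | base => rw [hF0]; rfl
    | succ k hjk ih =>
      rw [hFs j k hjk, hFs i k (hij.trans hjk), MonoidHom.comp_apply, MonoidHom.comp_apply, ih]
  have hFinj : ∀ i j (hij : i ≤ j), Function.Injective (F i j hij) := by
    intro i j hij
    induction j, hij using Nat.le_induction with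
    | base => rw [hF0]; exact fun _ _ h => h
    | succ j hij ih => rw [hFs i j hij]; exact (hf j).comp ih
  have hds : DirectedSystem G (fun i j h => F i j h) :=
    { map_self := fun i x => by rw [hF0]; rfl
      map_map := fun i j k hij hjk x => hFt _ _ _ hij hjk x }
  let L := DirectLimit G (fun i j h => F i j h)
  let φ : ∀ n, G n →* L := fun n =>
    { toFun := fun x => ⟦⟨n, x⟩⟧
      map_one' := (DirectLimit.one_def n).symm
      map_mul' := fun x y => (DirectLimit.mul_def n x y).symm }
  have hφinj : ∀ n, Function.Injective (φ n) := fun n =>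
    DirectLimit.mk_injective (fun i j h => F i j h) (fun i j hij => hFinj i j hij) n
  have hφF : ∀ i j (h : i ≤ j) (x : G i), φ j (F i j h x) = φ i x := fun i j h x =>
    DirectLimit.mk_apply (f := fun i j h => F i j h) i j x h
  have hφf : ∀ n (x : G n), φ (n + 1) (f n x) = φ n x := by
    intro n x
    rw [← hφF n (n + 1) (Nat.le_succ n) x, hFs n n le_rfl, hF0]
    rfl
  have hφr : ∀ i j, i ≤ j → (φ i).range ≤ (φ j).range := by
    rintro i j h _ ⟨x, rfl⟩
    exact ⟨F i j h x, hφF i j h x⟩
  have hex : ∀ z : L, ∃ n, z ∈ (φ n).range := by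
    intro z
    obtain ⟨n, x, rfl⟩ := DirectLimit.exists_eq_mk (fun i j h => F i j h) z
    exact ⟨n, x, rfl⟩
  have hfin : ∀ T : Finset L, ∃ n, ∀ t ∈ T, t ∈ (φ n).range := by
    intro T
    induction T using Finset.induction_on with
    | empty => exact ⟨0, fun t ht => absurd ht (Finset.notMem_empty t)⟩
    | insert a T _ ih =>
      obtain ⟨n, hn⟩ := ih
      obtain ⟨k, hk⟩ := hex a
      refine ⟨max n k, fun t ht => ?_⟩
      rcases Finset.mem_insert.mp ht with rfl | ht
      · exact hφr k _ (le_max_right _ _) hk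
      · exact hφr n _ (le_max_left _ _) (hn t ht)
  have hrfin : ∀ n, Finite (φ n).range := fun n =>
    Finite.of_surjective (φ n).rangeRestrict (φ n).rangeRestrict_surjective
  have hngrow : ∀ n, n ≤ Nat.card (G n) := by
    intro n
    induction n with
    | zero => exact Nat.zero_le _
    | succ n ih => exact lt_of_le_of_lt ih (hcard n)
  have hinf : Infinite L := by
    by_contra hni
    have hLf : Finite L := not_infinite_iff_finite.mp hni
    have h1 := Nat.card_le_card_of_injective _ (hφinj (Nat.card L + 1))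
    have h2 := hngrow (Nat.card L + 1)
    omega
  refine ⟨L, inferInstance, hinf, ?_, ?_, ?_⟩
  · rintro K ⟨T, hT⟩
    obtain ⟨n, hn⟩ := hfin T
    have hle : K ≤ (φ n).range := by
      rw [← hT, Subgroup.closure_le]
      exact fun t ht => hn t ht
    have := hrfin n
    exact Finite.of_injective _ (Subgroup.inclusion_injective hle)
  · have hnt : Nontrivial L := by
      have := hinf
      infer_instance
    refine { exists_pair_ne := hnt.exists_pair_ne, eq_bot_or_eq_top_of_normal := ?_ }
    intro N hN
    by_cases hbot : N = ⊥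
    · exact Or.inl hbot
    · right
      obtain ⟨a, ha, ha1⟩ := (Subgroup.ne_bot_iff_exists_ne_one (H := N)).mp hbot |> fun ⟨a, ha⟩ =>
        (⟨a.1, a.2, fun h => ha (Subtype.ext h)⟩ : ∃ a : L, a ∈ N ∧ a ≠ 1)
      rw [eq_top_iff]
      intro b _
      obtain ⟨n, hn⟩ := hfin {a, b}
      obtain ⟨a', rfl⟩ := hn a (by simp)
      obtain ⟨b', rfl⟩ := hn b (by simp)
      have ha' : a' ≠ 1 := by
        rintro rfl
        exact ha1 (map_one _)
      have hle : Subgroup.normalClosure {f n a'} ≤ N.comap (φ (n + 1)) := by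
        apply Subgroup.normalClosure_le_normal
        rintro z rfl
        change φ (n + 1) (f n a') ∈ N
        rw [hφf]
        exact ha
      have hb := hle (hnc n a' ha' b')
      have hb' : φ (n + 1) (f n b') ∈ N := hb
      rwa [hφf] at hb'
  · intro S hS hSs
    have hSf : (S : Set L).Finite := Set.toFinite _
    obtain ⟨n, hn⟩ := hfin hSf.toFinset
    have hle : S ≤ (φ n).range := fun s hs => hn s (hSf.mem_toFinset.mpr hs)
    exact (hns n).comm ((MonoidHom.ofInjective (hφinj n)).symm.toMonoidHom.comp
      (Subgroup.inclusion hle))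
      ((MonoidHom.ofInjective (hφinj n)).symm.injective.comp (Subgroup.inclusion_injective hle))

/-- A stage of the construction. -/
structure Stage where
  /-- the group -/
  G : Type
  /-- group structure -/
  grp : Group G
  /-- finiteness -/
  fin : Finite G
  /-- no nonabelian simple subgroups -/
  ns : NS G
  /-- perfectness -/
  perf : commutator G = ⊤

attribute [instance] Stage.grp Stage.fin

theorem Stage.next (s : Stage) : ∃ (t : Stage) (j : s.G →* t.G),
    Function.Injective j ∧ (∀ h : s.G, h ≠ 1 → ∀ x : s.G,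
      j x ∈ Subgroup.normalClosure {j h}) ∧ Nat.card s.G < Nat.card t.G := by
  obtain ⟨D, gD, fD, j, h1, h2, h3, h4, h5⟩ := embed s.G s.ns s.perf
  exact ⟨⟨D, gD, fD, h2, h3⟩, j, h1, h4, h5⟩

end Limit

/-- There is an infinite locally finite simple group without nonabelian finite simple
subgroups. -/
theorem main : ∃ (L : Type) (_ : Group L), Infinite L ∧ (∀ K : Subgroup L, K.FG → Finite K) ∧
      IsSimpleGroup L ∧ NS L := by
  choose next j h1 h2 h3 using Stage.next
  have s0 : Stage :=
    { G := Unit
      grp := inferInstance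
      fin := inferInstance
      ns := fun S _ _ a b => Subsingleton.elim _ _
      perf := Subsingleton.elim _ _ }
  let st : ℕ → Stage := fun n => Nat.rec s0 (fun _ s => next s) n
  exact @exists_limit (fun n => (st n).G) (fun n => (st n).grp) (fun n => (st n).fin)
    (fun n => j (st n)) (fun n => h1 (st n))
    (fun n => (st n).ns) (fun n => h2 (st n)) (fun n => h3 (st n))

end Pool.Agent.MP_0b7c94_al
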